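import Pool.Agent.KS6_36.BO.Fin

/-!
In every dimension `N ≥ 2` there is a smooth bounded domain for which no position of a ball obstacle
minimising the first Dirichlet eigenvalue touches the boundary.
-/

open MeasureTheory Metric Set
open scoped ContDiff

namespace Pool.Agent.Results.MP_541d1f_an.EveryDimension

/-- First Dirichlet eigenvalue of an open set of Euclidean space: the infimum of the Rayleigh
quotient over nonzero smooth functions with compact support in the set. -/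
noncomputable def lambda1 {N : ℕ} (U : Set (EuclideanSpace ℝ (Fin N))) : ℝ :=
  sInf {r | ∃ φ : EuclideanSpace ℝ (Fin N) → ℝ, ContDiff ℝ ∞ φ ∧ HasCompactSupport φ ∧
    tsupport φ ⊆ U ∧ φ ≠ 0 ∧ r = (∫ x, ‖gradient φ x‖ ^ 2) / ∫ x, φ x ^ 2}

/-- `x` is an admissible centre (`ball x ρ ⊆ Ω`) at which the first Dirichlet eigenvalue of `Ω` with
the closed ball of radius `ρ` removed is minimal among all admissible centres. -/
def IsMinimiser {N : ℕ} (Ω : Set (EuclideanSpace ℝ (Fin N))) (ρ : ℝ)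
    (x : EuclideanSpace ℝ (Fin N)) : Prop :=
  ball x ρ ⊆ Ω ∧ ∀ y, ball y ρ ⊆ Ω → lambda1 (Ω \ closedBall x ρ) ≤ lambda1 (Ω \ closedBall y ρ)

/-- For every `N ≥ 2` there is a bounded domain `Ω` of `ℝ^N`, namely an open ball with finitely many
pairwise disjoint closed balls removed, and a radius `ρ`, such that a minimising position of the
obstacle exists and no minimising position touches the boundary of `Ω`. -/
theorem result (N : ℕ) (hN : 2 ≤ N) :
    ∃ (Ω : Set (EuclideanSpace ℝ (Fin N))) (ρ : ℝ),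
      IsOpen Ω ∧ IsConnected Ω ∧ Bornology.IsBounded Ω ∧ 0 < ρ ∧
      (∃ (R : ℝ) (F : Finset (EuclideanSpace ℝ (Fin N) × ℝ)),
        (∀ b ∈ F, 0 < b.2 ∧ closedBall b.1 b.2 ⊆ ball 0 R) ∧
        (∀ b ∈ F, ∀ b' ∈ F, b ≠ b' → Disjoint (closedBall b.1 b.2) (closedBall b'.1 b'.2)) ∧
        Ω = ball 0 R \ ⋃ b ∈ F, closedBall b.1 b.2) ∧
      (∃ x, IsMinimiser Ω ρ x) ∧
      ∀ x, IsMinimiser Ω ρ x → ρ < infDist x (frontier Ω) := by
  obtain ⟨n, rfl⟩ : ∃ n, N = n + 2 := ⟨N - 2, by omega⟩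
  obtain ⟨L, I, lo, I1, I2, B, h0, hadm, hann⟩ := Pool.Agent.KS6_36.BO.domain n
  have ha := Pool.Agent.KS6_36.BO.al_pos n
  set α := Pool.Agent.KS6_36.BO.al n
  set Ω : Set (EuclideanSpace ℝ (Fin (n + 2))) := ball 0 L \ ⋃ b ∈ I, closedBall b.1 b.2 with hΩ
  have Ob : Bornology.IsBounded Ω := isBounded_ball.subset sdiff_subset
  have Oo : IsOpen Ω := isOpen_ball.sdiff (I.finite_toSet.isClosed_biUnion fun _ _ => isClosed_closedBall)
  have O0 : Ω.Nonempty := ⟨0, B (mem_ball_self (by positivity))⟩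
  obtain ⟨x0, x1, x2⟩ := Pool.Agent.KS6_36.BO.exmin (ρ := 1) (R := α / 4) (R' := 1 + 5 / 16 * α) Ob
    (by positivity) (by positivity) (by linarith) B
  have adm0 : ball (0 : EuclideanSpace ℝ (Fin (n + 2))) 1 ⊆ Ω := (ball_subset_ball (by linarith)).trans B
  have x1' : ‖x0‖ ≤ α / 4 := by simpa using x1
  have admx : ball x0 1 ⊆ Ω := (ball_subset_ball' (by
    rw [dist_zero_right]
    linarith)).trans B
  have min0 : lambda1 (Ω \ closedBall x0 1) ≤ lambda1 (Ω \ closedBall 0 1) :=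
    x2 (mem_closedBall_self (by positivity))
  have h0' : lambda1 (Ω \ closedBall 0 1) ≤ lo := h0
  refine ⟨Ω, 1, Oo, ⟨O0, Pool.Agent.KS6_36.BO.holes I _ _ isOpen_ball (convex_ball _ _).isPreconnected I1 I2⟩,
    Ob, one_pos, ⟨L, I, I1, I2, rfl⟩, ⟨x0, admx, fun y hy => ?_⟩, fun x hx => ?_⟩
  · rcases le_total ‖y‖ (α / 4) with h | h
    · exact x2 (by simpa using h)
    · have : lo < lambda1 (Ω \ closedBall y 1) := hann y h (hadm y hy)
      linarith
  · have hxn : ‖x‖ < α / 4 := by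
      by_contra hcon
      push Not at hcon
      have h1 : lo < lambda1 (Ω \ closedBall x 1) := hann x hcon (hadm x hx.1)
      have h2 := hx.2 0 adm0
      linarith
    refine lt_of_lt_of_le (show (1 : ℝ) < 1 + α / 16 by linarith) ((le_infDist (nonempty_frontier_iff.2
      ⟨O0, fun i => NormedSpace.unbounded_univ ℝ _ (i ▸ Ob)⟩)).2 fun z hz => ?_)
    rw [Oo.frontier_eq] at hz
    have h3 : 1 + 5 / 16 * α ≤ dist z 0 := not_lt.1 fun i => hz.2 (B i)
    have h4 := dist_triangle z x 0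
    rw [dist_comm z x, dist_zero_right x] at h4
    linarith

end Pool.Agent.Results.MP_541d1f_an.EveryDimension
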